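import Pool.Agent.W712.WR.Stm

/-!
# Finite closure under elimination (WR-CLOS)
-/

open Finset
open W712.WR

namespace Pool.Agent.W253.WR

/-- the elimination step -/
noncomputable def el (k : ℕ) (ν μ : ℕ → ℝ) : ℕ → ℝ := fun i => ν i / ν k - μ i / μ k

theorem el_supp {k : ℕ} {ν μ : ℕ → ℝ} (h1 : Supp (k + 1) ν) (h2 : Supp (k + 1) μ)
    (h3 : ν k ≠ 0) (h4 : μ k ≠ 0) : Supp k (el k ν μ) := by
  intro i hi
  rcases Nat.eq_or_lt_of_le hi with h | h
  · subst h
    simp [el, h3, h4]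
  · have e1 := h1 i h
    have e2 := h2 i h
    simp [el, e1, e2]

theorem clos_ind (n : ℕ) (D0 : Finset (ℕ → ℝ)) (hs : ∀ ν ∈ D0, Supp n ν)
    (hn : ∀ ν ∈ D0, (fun i => - ν i) ∈ D0) (j : ℕ) :
    ∃ D : Finset (ℕ → ℝ), D0 ⊆ D ∧ (∀ ν ∈ D, Supp n ν) ∧ (∀ ν ∈ D, (fun i => - ν i) ∈ D) ∧
      ∀ r, n ≤ r + j → ∀ ν ∈ D, ∀ μ ∈ D, Supp (r + 1) ν → Supp (r + 1) μ → ν r ≠ 0 → μ r ≠ 0 →
        (fun i => ν i / ν r - μ i / μ r) ∈ D := by
  classical
  induction j with
  | zero =>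
    refine ⟨D0, subset_rfl, hs, hn, ?_⟩
    intro r hr ν hν μ _ _ _ h _
    exact absurd (hs ν hν r (by omega)) h
  | succ j ih =>
    obtain ⟨D, hD0, hDs, hDn, hDe⟩ := ih
    by_cases hj : n ≤ j
    · refine ⟨D, hD0, hDs, hDn, ?_⟩
      intro r _
      exact hDe r (by omega)
    push Not at hj
    obtain ⟨k, hk⟩ : ∃ k, n = k + j + 1 := ⟨n - j - 1, by omega⟩
    set F := D.filter (fun ν => Supp (k + 1) ν ∧ ν k ≠ 0) with hF
    set N := Finset.image₂ (el k) F F with hN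
    have hNs : ∀ ω ∈ N, Supp k ω := by
      intro ω hω
      rw [hN, Finset.mem_image₂] at hω
      obtain ⟨ν, hν, μ, hμ, rfl⟩ := hω
      rw [hF, Finset.mem_filter] at hν hμ
      exact el_supp hν.2.1 hμ.2.1 hν.2.2 hμ.2.2
    refine ⟨D ∪ N, hD0.trans Finset.subset_union_left, ?_, ?_, ?_⟩
    · intro ν hν
      rcases Finset.mem_union.1 hν with h | h
      · exact hDs ν h
      · intro i hi
        exact hNs ν h i (by omega)
    · intro ν hν
      rcases Finset.mem_union.1 hν with h | h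
      · exact Finset.mem_union_left _ (hDn ν h)
      · refine Finset.mem_union_right _ ?_
        rw [hN, Finset.mem_image₂] at h ⊢
        obtain ⟨a, ha, b, hb, rfl⟩ := h
        refine ⟨b, hb, a, ha, ?_⟩
        funext i
        simp [el]
    · intro r hr ν hν μ hμ h1 h2 h3 h4
      have hrk : k ≤ r := by omega
      have hold : ∀ ω ∈ D ∪ N, ω r ≠ 0 → ω ∈ D := by
        intro ω hω h0
        rcases Finset.mem_union.1 hω with h | h
        · exact h
        · exact absurd (hNs ω h r hrk) h0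
      have hν' := hold ν hν h3
      have hμ' := hold μ hμ h4
      rcases Nat.eq_or_lt_of_le hrk with h | h
      · subst h
        refine Finset.mem_union_right _ ?_
        rw [hN, Finset.mem_image₂]
        exact ⟨ν, Finset.mem_filter.2 ⟨hν', h1, h3⟩, μ, Finset.mem_filter.2 ⟨hμ', h2, h4⟩, rfl⟩
      · exact Finset.mem_union_left _ (hDe r (by omega) ν hν' μ hμ' h1 h2 h3 h4)

theorem clos : ClosStm := by
  classical
  intro n U hU
  set df : ℕ → (ℕ → ℝ) := fun r i => if i = r then (1 : ℝ) else if i = r + 1 then -1 else 0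
    with hdf
  set D1 : Finset (ℕ → ℝ) := U ∪ (Finset.range (n - 1)).image df with hD1
  have hD1s : ∀ ν ∈ D1, Supp n ν := by
    intro ν hν
    rcases Finset.mem_union.1 hν with h | h
    · exact hU ν h
    · rw [Finset.mem_image] at h
      obtain ⟨r, hr, rfl⟩ := h
      rw [Finset.mem_range] at hr
      intro i hi
      simp only [hdf]
      rw [if_neg (by omega), if_neg (by omega)]
  set D0 : Finset (ℕ → ℝ) := D1 ∪ D1.image (fun ν i => - ν i) with hD0
  have hs : ∀ ν ∈ D0, Supp n ν := by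
    intro ν hν
    rcases Finset.mem_union.1 hν with h | h
    · exact hD1s ν h
    · rw [Finset.mem_image] at h
      obtain ⟨μ, hμ, rfl⟩ := h
      intro i hi
      simp [hD1s μ hμ i hi]
  have hneg : ∀ ν ∈ D0, (fun i => - ν i) ∈ D0 := by
    intro ν hν
    rcases Finset.mem_union.1 hν with h | h
    · exact Finset.mem_union_right _ (Finset.mem_image.2 ⟨ν, h, rfl⟩)
    · rw [Finset.mem_image] at h
      obtain ⟨μ, hμ, rfl⟩ := h
      refine Finset.mem_union_left _ ?_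
      simpa using hμ
  obtain ⟨D, hsub, hDs, hDn, hDe⟩ := clos_ind n D0 hs hneg n
  set C : ℝ := 1 + ∑ ν ∈ D, ∑ i ∈ range n, (|ν i| + |ν i|⁻¹) with hC
  have hnn : ∀ ν : ℕ → ℝ, ∀ i, 0 ≤ |ν i| + |ν i|⁻¹ := fun ν i => by positivity
  have hle : ∀ ν ∈ D, ∀ i, i < n → |ν i| + |ν i|⁻¹ ≤ C := by
    intro ν hν i hi
    have h1 : |ν i| + |ν i|⁻¹ ≤ ∑ i ∈ range n, (|ν i| + |ν i|⁻¹) :=
      Finset.single_le_sum (f := fun i => |ν i| + |ν i|⁻¹) (fun i _ => hnn ν i)
        (Finset.mem_range.2 hi)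
    have h2 : ∑ i ∈ range n, (|ν i| + |ν i|⁻¹) ≤ ∑ ν ∈ D, ∑ i ∈ range n, (|ν i| + |ν i|⁻¹) :=
      Finset.single_le_sum (f := fun ν : ℕ → ℝ => ∑ i ∈ range n, (|ν i| + |ν i|⁻¹))
        (fun ν _ => Finset.sum_nonneg fun i _ => hnn ν i) hν
    linarith
  have hC1 : 1 ≤ C := by
    have : 0 ≤ ∑ ν ∈ D, ∑ i ∈ range n, (|ν i| + |ν i|⁻¹) :=
      Finset.sum_nonneg fun ν _ => Finset.sum_nonneg fun i _ => hnn ν i
    linarith
  refine ⟨D, C, ⟨hC1, hDs, hDn, ?_, ?_, ?_, ?_⟩, ?_⟩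
  · intro ν hν i
    by_cases hi : i < n
    · have := hle ν hν i hi
      have h2 : 0 ≤ |ν i|⁻¹ := by positivity
      linarith
    · rw [hDs ν hν i (by omega), abs_zero]
      linarith
  · intro ν hν i h0
    have hi : i < n := by
      by_contra hi
      exact h0 (hDs ν hν i (by omega))
    have h1 := hle ν hν i hi
    have h2 : 0 < |ν i| := abs_pos.2 h0
    have h3 : |ν i|⁻¹ ≤ C := by linarith
    calc (1 : ℝ) = |ν i|⁻¹ * |ν i| := (inv_mul_cancel₀ h2.ne').symm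
      _ ≤ C * |ν i| := by gcongr
  · intro r ν hν μ hμ
    exact hDe r (by omega) ν hν μ hμ
  · intro r hr
    refine hsub (Finset.mem_union_left _ (Finset.mem_union_right _ ?_))
    exact Finset.mem_image.2 ⟨r, Finset.mem_range.2 (by omega), rfl⟩
  · exact fun u hu => hsub (Finset.mem_union_left _ (Finset.mem_union_left _ hu))

end Pool.Agent.W253.WR
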